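import Pool.Agent.L0h17.WT.Stm3

/-!
# Module ETA of board WT: etale changes of coordinates
-/

set_option autoImplicit false
set_option linter.all false

namespace Pool.Agent.L0h28.WT

open MvPolynomial Pool.Agent.N103.V Pool.Agent.N103 Pool.Agent.L0h17.WT

section

variable {V : Type} {L : Type} [CommRing L] [Algebra ℂ L] {φ : MvPolynomial V ℂ →ₐ[ℂ] L} {U : Submodule ℂ L}

theorem mulU' (h1 : ∀ i, ∀ x ∈ U, φ (X i) * x ∈ U) (q : MvPolynomial V ℂ) :
    ∀ x ∈ U, φ q * x ∈ U := by
  induction q using MvPolynomial.induction_on with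
  | C a =>
    intro x hx
    have : φ (C a) = algebraMap ℂ L a := φ.commutes a
    rw [this, ← Algebra.smul_def]
    exact U.smul_mem a hx
  | add p q hp hq =>
    intro x hx
    rw [map_add, add_mul]
    exact U.add_mem (hp x hx) (hq x hx)
  | mul_X p i hp =>
    intro x hx
    rw [map_mul, mul_assoc]
    exact hp _ (h1 i x hx)

/-- derivations over a homomorphism which agree on the variables -/
theorem der_chain (φ : MvPolynomial V ℂ →ₐ[ℂ] L) [Fintype V] (E : Derivation ℂ L L) (a : V → MvPolynomial V ℂ)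
    (c : L) [DecidableEq V] (i : V) (h : ∀ j, E (φ (X j)) = if i = j then 1 else 0) (p : MvPolynomial V ℂ) :
    E (φ p) = φ (pderiv i p) := by
  induction p using MvPolynomial.induction_on with
  | C z =>
    have h1 : φ (C z) = algebraMap ℂ L z := φ.commutes z
    rw [h1, Derivation.map_algebraMap, pderiv_C, map_zero]
  | add p q hp hq => rw [map_add, map_add, map_add, map_add, hp, hq]
  | mul_X p j hp =>
    rw [map_mul, Derivation.leibniz, hp, h j, Derivation.leibniz, pderiv_X, smul_eq_mul, smul_eq_mul, smul_eq_mul,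
      smul_eq_mul, map_add, map_mul, map_mul]
    congr 2
    by_cases hij : i = j
    · subst hij; simp
    · simp [hij, Pi.single_apply, Ne.symm hij]

end

theorem sum_der {V L : Type} [CommRing L] [Algebra ℂ L] (t : Finset V) (f : V → Derivation ℂ L L) (x : L) :
    (∑ k ∈ t, f k) x = ∑ k ∈ t, f k x := by
  classical
  induction t using Finset.induction_on with
  | empty => simp
  | insert a t ha ih => rw [Finset.sum_insert ha, Finset.sum_insert ha, Derivation.add_apply, ih]

theorem eval_phi {V : Type} (φ : MvPolynomial V ℂ →ₐ[ℂ] MvPolynomial V ℂ)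
    (h : ∀ v, eval 0 (φ (X v)) = 0) (p : MvPolynomial V ℂ) : eval 0 (φ p) = eval 0 p := by
  induction p using MvPolynomial.induction_on with
  | C z =>
    have h1 : φ (C z) = C z := φ.commutes z
    rw [h1]
  | add p q hp hq => rw [map_add, map_add, map_add, hp, hq]
  | mul_X p j hp =>
    rw [map_mul, map_mul, map_mul, hp, h j, eval_X]
    simp

theorem t_ETA (hU : S_UNI) : S_ETA := by
  intro V _ _ φ F H s hφ0 hδ0 hF hH hE
  set F' := φ F with hF'
  set M : Matrix V V (MvPolynomial V ℂ) := Matrix.of fun i k => pderiv k (φ (X i)) with hM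
  set δ := M.det with hδ
  have hδne : δ ≠ 0 := by
    intro h0
    rw [h0, map_zero] at hδ0
    exact hδ0 rfl
  -- the first localization
  have hpow : Submonoid.powers F' ≤ nonZeroDivisors (MvPolynomial V ℂ) :=
    powers_le_nonZeroDivisors_of_noZeroDivisors hF
  have hinj : Function.Injective (algebraMap (MvPolynomial V ℂ) (Localization.Away F')) :=
    IsLocalization.injective _ hpow
  haveI hdom : IsDomain (Localization.Away F') := IsLocalization.isDomain_localization hpow
  set jj := algebraMap (MvPolynomial V ℂ) (Localization.Away F') with hjj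
  have hder : ∀ i : V, ∃ E : Derivation ℂ (Localization.Away F') (Localization.Away F'),
      ∀ x, E (jj x) = jj (MvPolynomial.pderiv i x) := fun i =>
    exists_locDer (B := Localization.Away F') (Submonoid.powers F') (MvPolynomial.pderiv i)
  choose D₀ hD₀ using hder
  obtain ⟨Gi₀, hGi₀⟩ := (IsLocalization.Away.algebraMap_isUnit (S := Localization.Away F') F').exists_right_inv
  set φ₀ : MvPolynomial V ℂ →ₐ[ℂ] Localization.Away F' :=
    IsScalarTower.toAlgHom ℂ (MvPolynomial V ℂ) (Localization.Away F') with hφ₀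
  have hφa : ∀ x, φ₀ x = jj x := fun x => rfl
  -- the smallest stable subspace
  set P : Submodule ℂ (Localization.Away F') → Prop := fun U₀ =>
    (∀ i, ∀ x ∈ U₀, φ₀ (X i) * x ∈ U₀) ∧ (∀ i, ∀ x ∈ U₀, nab φ₀ D₀ F' Gi₀ s i x ∈ U₀) ∧
      φ₀ F' ∈ U₀ ∧ (∀ i, φ₀ (pderiv i F') ∈ U₀) with hP
  set U₀ := sInf {U | P U} with hU₀
  have hPU : P U₀ := by
    refine ⟨fun i x hx => ?_, fun i x hx => ?_, ?_, fun i => ?_⟩
    · rw [Submodule.mem_sInf] at hx ⊢
      exact fun W hW => hW.1 i x (hx W hW)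
    · rw [Submodule.mem_sInf] at hx ⊢
      exact fun W hW => hW.2.1 i x (hx W hW)
    · rw [Submodule.mem_sInf]
      exact fun W hW => hW.2.2.1
    · rw [Submodule.mem_sInf]
      exact fun W hW => hW.2.2.2 i
  obtain ⟨p1, p2, p3, p4⟩ := hPU
  have pm : ∀ q : MvPolynomial V ℂ, ∀ x ∈ U₀, jj q * x ∈ U₀ := fun q => mulU' (φ := φ₀) p1 q
  -- the second localization
  have hdne : jj δ ≠ 0 := fun h0 => hδne (hinj (by rw [h0, map_zero]))
  have hpow1 : Submonoid.powers (jj δ) ≤ nonZeroDivisors (Localization.Away F') :=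
    powers_le_nonZeroDivisors_of_noZeroDivisors hdne
  have hinj1 : Function.Injective (algebraMap (Localization.Away F') (Localization.Away (jj δ))) :=
    IsLocalization.injective _ hpow1
  set ι := algebraMap (Localization.Away F') (Localization.Away (jj δ)) with hι
  have hder1 : ∀ i : V, ∃ E : Derivation ℂ (Localization.Away (jj δ)) (Localization.Away (jj δ)),
      ∀ x, E (ι x) = ι (D₀ i x) := fun i =>
    exists_locDer (B := Localization.Away (jj δ)) (Submonoid.powers (jj δ)) (D₀ i)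
  choose D₁ hD₁ using hder1
  obtain ⟨di, hdi⟩ := (IsLocalization.Away.algebraMap_isUnit (S := Localization.Away (jj δ)) (jj δ)).exists_right_inv
  set ιa : Localization.Away F' →ₐ[ℂ] Localization.Away (jj δ) :=
    IsScalarTower.toAlgHom ℂ (Localization.Away F') (Localization.Away (jj δ)) with hιa
  have hιa' : ∀ x, ιa x = ι x := fun x => rfl
  set Φ : MvPolynomial V ℂ →ₐ[ℂ] Localization.Away (jj δ) := (ιa.comp φ₀).comp φ with hΦ
  have hΦa : ∀ p, Φ p = ι (jj (φ p)) := fun p => rfl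
  set c : V → V → Localization.Away (jj δ) := fun i k => ι (jj (M.adjugate k i)) * di with hc
  set D' : V → Derivation ℂ (Localization.Away (jj δ)) (Localization.Away (jj δ)) :=
    fun i => ∑ k, c i k • D₁ k with hD'
  have hD'a : ∀ i x, D' i x = ∑ k, c i k * D₁ k x := by
    intro i x
    exact sum_der Finset.univ (fun k => c i k • D₁ k) x
  have hX : ∀ i j, D' i (Φ (X j)) = if i = j then 1 else 0 := by
    intro i j
    rw [hD'a]
    have e1 : ∀ k, c i k * D₁ k (Φ (X j)) = ι (jj (M j k * M.adjugate k i)) * di := by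
      intro k
      rw [hΦa, hD₁, hD₀, map_mul, map_mul]
      have e2 : M j k = pderiv k (φ (X j)) := rfl
      rw [e2, hc]
      ring
    rw [Finset.sum_congr rfl fun k _ => e1 k, ← Finset.sum_mul, ← map_sum, ← map_sum]
    have e3 : ∑ k, M j k * M.adjugate k i = (M * M.adjugate) j i := rfl
    rw [e3, Matrix.mul_adjugate, Matrix.smul_apply, Matrix.one_apply, smul_eq_mul]
    by_cases hij : i = j
    · subst hij
      rw [if_pos rfl, if_pos rfl, mul_one]
      exact hdi
    · rw [if_neg (Ne.symm hij), if_neg hij, mul_zero, map_zero, map_zero, zero_mul]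
  have hchain : ∀ i p, D' i (Φ p) = Φ (pderiv i p) := fun i p => der_chain Φ (D' i) (fun _ => 0) 0 i (hX i) p
  have hG1 : Φ F * ι Gi₀ = 1 := by
    rw [hΦa, ← map_mul]
    have : jj (φ F) * Gi₀ = 1 := hGi₀
    rw [this, map_one]
  -- the subspace
  let U₁ : Submodule ℂ (Localization.Away (jj δ)) :=
    { carrier := {x | ∃ n : ℕ, ∃ u ∈ U₀, ι (jj δ) ^ n * x = ι u}
      add_mem' := by
        rintro x y ⟨n, u, hu, hx⟩ ⟨m, v, hv, hy⟩
        refine ⟨n + m, jj (δ ^ m) * u + jj (δ ^ n) * v, U₀.add_mem (pm _ _ hu) (pm _ _ hv), ?_⟩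
        rw [map_add, map_mul, map_mul, ← hx, ← hy, map_pow, map_pow, map_pow, map_pow]
        ring
      zero_mem' := ⟨0, 0, U₀.zero_mem, by rw [mul_zero, map_zero]⟩
      smul_mem' := by
        rintro z x ⟨n, u, hu, hx⟩
        refine ⟨n, z • u, U₀.smul_mem z hu, ?_⟩
        have : ι (z • u) = z • ι u := map_smul ιa z u
        rw [this, ← hx, mul_smul_comm] }
  have hU₁ : ∀ x, x ∈ U₁ ↔ ∃ n : ℕ, ∃ u ∈ U₀, ι (jj δ) ^ n * x = ι u := fun x => Iff.rfl
  -- the coefficients
  have hcm : ∀ i k, ∀ x, (∃ n : ℕ, ∃ u ∈ U₀, ι (jj δ) ^ n * x = ι u) → c i k * x ∈ U₁ := by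
    rintro i k x ⟨n, u, hu, hx⟩
    refine ⟨n + 1, jj (M.adjugate k i) * u, pm _ _ hu, ?_⟩
    rw [map_mul, ← hx, hc]
    have hdi' : ι (jj δ) * di = 1 := hdi
    linear_combination (ι (jj (M.adjugate k i)) * ι (jj δ) ^ n * x) * hdi'
  have hnab : ∀ k, ∀ x ∈ U₁, ∃ n : ℕ, ∃ u ∈ U₀, ι (jj δ) ^ n * (D₁ k x + algebraMap ℂ _ s *
      (D₁ k (Φ F) * ι Gi₀) * x) = ι u := by
    rintro k x ⟨n, u, hu, hx⟩
    refine ⟨n + 1, jj δ * nab φ₀ D₀ F' Gi₀ s k u - (n : ℂ) • (jj (pderiv k δ) * u), ?_, ?_⟩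
    · exact U₀.sub_mem (pm _ _ (p2 k u hu)) (U₀.smul_mem _ (pm _ _ hu))
    · have h1 : D₁ k (ι (jj δ) ^ n * x) = D₁ k (ι u) := by rw [hx]
      rw [Derivation.leibniz, Derivation.leibniz_pow, hD₁, hD₁, hD₀, smul_eq_mul, smul_eq_mul, smul_eq_mul,
        nsmul_eq_mul] at h1
      have h2 : ι (algebraMap ℂ (Localization.Away F') s) = algebraMap ℂ (Localization.Away (jj δ)) s :=
        ιa.commutes s
      have h3 : ι ((n : ℂ) • (jj (pderiv k δ) * u)) = (n : Localization.Away (jj δ)) * (ι (jj (pderiv k δ)) * ι u) := by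
        have : ι ((n : ℂ) • (jj (pderiv k δ) * u)) = (n : ℂ) • ι (jj (pderiv k δ) * u) := map_smul ιa _ _
        rw [this, map_mul]
        refine (Algebra.smul_def (n : ℂ) (ι (jj (pderiv k δ)) * ι u)).trans ?_
        rw [map_natCast]
      have h5 : ι (nab φ₀ D₀ F' Gi₀ s k u) = ι (D₀ k u) + algebraMap ℂ (Localization.Away (jj δ)) s *
          (ι (D₀ k (jj F')) * ι Gi₀) * ι u := by
        rw [nab_apply, map_add, map_mul, map_mul, map_mul, h2, hφa]
      have h4 : ι (jj δ * nab φ₀ D₀ F' Gi₀ s k u - (n : ℂ) • (jj (pderiv k δ) * u)) =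
          ι (jj δ) * ι (nab φ₀ D₀ F' Gi₀ s k u) - (n : Localization.Away (jj δ)) * (ι (jj (pderiv k δ)) * ι u) := by
        refine (map_sub ι _ _).trans ?_
        rw [h3, map_mul]
      rw [h4, h5, hΦa, hD₁, ← h1, ← hx]
      rcases Nat.eq_zero_or_pos n with hn | hn
      · subst hn
        simp only [pow_zero, one_mul, Nat.cast_zero, zero_mul, mul_zero, add_zero, zero_add, pow_one, sub_zero]
        rw [← hF']
      · obtain ⟨m, rfl⟩ : ∃ m, n = m + 1 := ⟨n - 1, by omega⟩
        have e : m + 1 - 1 = m := rfl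
        rw [e, ← hF']
        ring
  have hmem := hE (Localization.Away (jj δ)) Φ D' (ι Gi₀) hchain hG1 U₁
    (by
      rintro i x ⟨n, u, hu, hx⟩
      refine ⟨n, jj (φ (X i)) * u, pm _ _ hu, ?_⟩
      rw [map_mul, ← hx, hΦa]
      ring)
    (by
      intro i x hx
      have e1 : nab Φ D' F (ι Gi₀) s i x = ∑ k, c i k * (D₁ k x + algebraMap ℂ _ s *
          (D₁ k (Φ F) * ι Gi₀) * x) := by
        rw [nab_apply, hD'a, hD'a, Finset.sum_mul, Finset.mul_sum, Finset.sum_mul, ← Finset.sum_add_distrib]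
        refine Finset.sum_congr rfl fun k _ => ?_
        ring
      rw [e1]
      exact U₁.sum_mem fun k _ => hcm i k _ (hnab k x hx))
    ⟨0, jj F', p3, by rw [pow_zero, one_mul, hΦa]⟩
    (by
      intro i
      rw [← hchain, hD'a]
      refine U₁.sum_mem fun k _ => hcm i k _ ⟨0, jj (pderiv k F'), p4 k, ?_⟩
      rw [pow_zero, one_mul, hΦa, hD₁, hD₀])
  obtain ⟨n, u, hu, hx⟩ := hmem
  refine ⟨δ ^ n * φ H, ?_, ?_⟩
  · rw [map_mul, map_pow, eval_phi φ hφ0]
    exact mul_ne_zero (pow_ne_zero _ hδ0) hH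
  · have hK : jj (δ ^ n * φ H) = u := by
      apply hinj1
      rw [← hx, hΦa, map_mul, map_mul, map_pow, map_pow]
    refine hU F' (δ ^ n * φ H) s hF D₀ Gi₀ hD₀ hGi₀ ?_
    intro U g1 g2 g3 g4
    have h5 : U₀ ≤ U := sInf_le ⟨g1, g2, g3, g4⟩
    have h6 : jj (δ ^ n * φ H) ∈ U₀ := by rw [hK]; exact hu
    exact h5 h6

end Pool.Agent.L0h28.WT
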